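import Mathlib
import Pool.Agent.QuasiId

/-!
# Finite Jordan rings without a finite basis of quasi-identities

`Ring4 p` has a basis `a, b, d, e` over `ZMod p` and the products `a a = d`, `d b = b d = e`.
-/

set_option autoImplicit false

namespace Pool.Agent.Results.MP_db5ef1_al.JordanRings

open Pool.Agent.QuasiId

/-- Quadruples over `ZMod p` with the product
`(a, b, d, e) (a', b', d', e') = (0, 0, a a', d b' + b d')`. -/
def Ring4 (p : ℕ) : Type := ZMod p × ZMod p × ZMod p × ZMod p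

instance (p : ℕ) : AddCommGroup (Ring4 p) :=
  inferInstanceAs (AddCommGroup (ZMod p × ZMod p × ZMod p × ZMod p))

/-- the product of `Ring4 p` -/
def Ring4.mul' {p : ℕ} (x y : ZMod p × ZMod p × ZMod p × ZMod p) :
    ZMod p × ZMod p × ZMod p × ZMod p :=
  (0, 0, x.1 * y.1, x.2.2.1 * y.2.1 + x.2.1 * y.2.2.1)

instance (p : ℕ) : Mul (Ring4 p) := ⟨Ring4.mul'⟩

lemma Ring4.mul_def {p : ℕ} (x y : Ring4 p) : x * y = Ring4.mul' x y := rfl

instance (p : ℕ) : NonUnitalNonAssocRing (Ring4 p) :=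
  { (inferInstance : AddCommGroup (Ring4 p)), (inferInstance : Mul (Ring4 p)) with
    left_distrib := fun x y z => Prod.ext (by change (0 : ZMod p) = 0 + 0; simp)
      (Prod.ext (by change (0 : ZMod p) = 0 + 0; simp)
        (Prod.ext
          (by change x.1 * (y.1 + z.1) = x.1 * y.1 + x.1 * z.1
              ring)
          (by change x.2.2.1 * (y.2.1 + z.2.1) + x.2.1 * (y.2.2.1 + z.2.2.1) =
                (x.2.2.1 * y.2.1 + x.2.1 * y.2.2.1) + (x.2.2.1 * z.2.1 + x.2.1 * z.2.2.1)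
              ring)))
    right_distrib := fun x y z => Prod.ext (by change (0 : ZMod p) = 0 + 0; simp)
      (Prod.ext (by change (0 : ZMod p) = 0 + 0; simp)
        (Prod.ext
          (by change (x.1 + y.1) * z.1 = x.1 * z.1 + y.1 * z.1
              ring)
          (by change (x.2.2.1 + y.2.2.1) * z.2.1 + (x.2.1 + y.2.1) * z.2.2.1 =
                (x.2.2.1 * z.2.1 + x.2.1 * z.2.2.1) + (y.2.2.1 * z.2.1 + y.2.1 * z.2.2.1)
              ring)))
    zero_mul := fun x => by
      change Ring4.mul' (0 : ZMod p × ZMod p × ZMod p × ZMod p) x = 0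
      simp [Ring4.mul']
    mul_zero := fun x => by
      change Ring4.mul' x (0 : ZMod p × ZMod p × ZMod p × ZMod p) = 0
      simp [Ring4.mul'] }

instance (p : ℕ) [NeZero p] : Finite (Ring4 p) :=
  inferInstanceAs (Finite (ZMod p × ZMod p × ZMod p × ZMod p))

lemma Ring4.card (p : ℕ) [NeZero p] : Nat.card (Ring4 p) = p ^ 4 := by
  have : Nat.card (ZMod p × ZMod p × ZMod p × ZMod p) = p ^ 4 := by
    rw [Nat.card_eq_fintype_card]
    simp only [Fintype.card_prod, ZMod.card]
    ring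
  exact this

lemma Ring4.jordan (p : ℕ) : IsJordanRing (Ring4 p) := by
  refine ⟨fun x y => ?_, fun x y => ?_⟩
  · refine Prod.ext rfl (Prod.ext rfl (Prod.ext ?_ ?_))
    · change x.1 * y.1 = y.1 * x.1
      ring
    · change x.2.2.1 * y.2.1 + x.2.1 * y.2.2.1 = y.2.2.1 * x.2.1 + y.2.1 * x.2.2.1
      ring
  · refine Prod.ext rfl (Prod.ext rfl (Prod.ext ?_ ?_))
    · change (0 : ZMod p) * x.1 = 0 * 0
      ring
    · change (0 : ZMod p) * y.1 * x.2.1 + 0 * x.2.2.1 = x.1 * x.1 * 0 + 0 * (y.1 * x.1)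
      ring

lemma Ring4.nonassoc (p : ℕ) [Fact p.Prime] : ¬ IsAssociativeRing (Ring4 p) := by
  intro h
  have h1 := h ((1, 0, 0, 0) : ZMod p × ZMod p × ZMod p × ZMod p)
    ((1, 0, 0, 0) : ZMod p × ZMod p × ZMod p × ZMod p)
    ((0, 1, 0, 0) : ZMod p × ZMod p × ZMod p × ZMod p)
  have h2 : (1 * 1 : ZMod p) * 1 + 0 * 0 = 0 * 0 + 0 * (1 * 0) :=
    congrArg (fun w : ZMod p × ZMod p × ZMod p × ZMod p => w.2.2.2) h1
  simp at h2

lemma Ring4.prod_zero {p : ℕ} : ∀ {k : ℕ} {x : Ring4 p}, IsProduct k x →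
    (2 ≤ k → x.1 = 0 ∧ x.2.1 = 0) ∧ (3 ≤ k → x.2.2.1 = 0) ∧ (4 ≤ k → x.2.2.2 = 0) := by
  intro k x h
  induction h with
  | elem a => exact ⟨fun h => absurd h (by omega), fun h => absurd h (by omega),
      fun h => absurd h (by omega)⟩
  | @mul i j a b ha hb iha ihb =>
    have hi : 1 ≤ i := by
      clear iha ihb hb
      induction ha with
      | elem a => exact le_rfl
      | mul _ _ h1 h2 => omega
    have hj : 1 ≤ j := by
      clear iha ihb ha
      induction hb with
      | elem a => exact le_rfl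
      | mul _ _ h1 h2 => omega
    obtain ⟨a1, a2, a3⟩ := iha
    obtain ⟨b1, b2, b3⟩ := ihb
    refine ⟨fun _ => ⟨rfl, rfl⟩, fun h3 => ?_, fun h4 => ?_⟩
    · change a.1 * b.1 = 0
      rcases (by omega : 2 ≤ i ∨ 2 ≤ j) with h | h
      · rw [(a1 h).1, zero_mul]
      · rw [(b1 h).1, mul_zero]
    · change a.2.2.1 * b.2.1 + a.2.1 * b.2.2.1 = 0
      rcases (by omega : (2 ≤ i ∧ 2 ≤ j) ∨ 3 ≤ i ∨ 3 ≤ j) with ⟨h, h'⟩ | h | h
      · rw [(b1 h').2, (a1 h).2, mul_zero, zero_mul, add_zero]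
      · rw [a2 h, (a1 (by omega)).2, zero_mul, zero_mul, add_zero]
      · rw [b2 h, (b1 (by omega)).2, mul_zero, mul_zero, add_zero]

lemma Ring4.nilp (p : ℕ) : NilpotentRing (Ring4 p) := by
  refine ⟨4, by omega, fun a ha => ?_⟩
  obtain ⟨h1, h2, h3⟩ := Ring4.prod_zero ha
  exact Prod.ext (h1 (by omega)).1 (Prod.ext (h1 (by omega)).2
    (Prod.ext (h2 (by omega)) (h3 (by omega))))

/-- **Finite Jordan rings need not have a finite basis of quasi-identities.** If a finite Jordan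
ring has a finite basis of quasi-identities, then all its nilpotent subrings have zero
multiplication. For every prime `p` there is a nilpotent Jordan ring with `p ^ 4` elements that is
not associative, and it has no finite basis of quasi-identities. -/
theorem result :
    (∀ (A : Type) [NonUnitalNonAssocRing A], Finite A → IsJordanRing A → HasFiniteBasis A →
      ∀ N : NonUnitalSubring A, NilpotentRing N → ∀ x ∈ N, ∀ y ∈ N, x * y = 0) ∧
    (∀ p : ℕ, p.Prime → ∃ (A : Type) (_ : NonUnitalNonAssocRing A), Nat.card A = p ^ 4 ∧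
      IsJordanRing A ∧ ¬ IsAssociativeRing A ∧ NilpotentRing A ∧ ¬ HasFiniteBasis A) := by
  refine ⟨fun A _ hfin _ hb N hN x hx y hy => ?_, fun p hp => ?_⟩
  · by_contra hxy
    refine mainAll A N (NonUnitalSubringClass.subtype N) Subtype.val_injective hN ⟨x, hx⟩ ⟨y, hy⟩
      (fun h => hxy ?_) hb
    exact congrArg Subtype.val h
  · have : Fact p.Prime := ⟨hp⟩
    refine ⟨Ring4 p, inferInstance, Ring4.card p, Ring4.jordan p, Ring4.nonassoc p, Ring4.nilp p, ?_⟩
    refine mainAll (Ring4 p) (Ring4 p) (NonUnitalRingHom.id _) (fun _ _ h => h) (Ring4.nilp p)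
      ((1, 0, 0, 0) : ZMod p × ZMod p × ZMod p × ZMod p)
      ((1, 0, 0, 0) : ZMod p × ZMod p × ZMod p × ZMod p) ?_
    intro h
    have h1 : (1 : ZMod p) * 1 = 0 :=
      congrArg (fun w : ZMod p × ZMod p × ZMod p × ZMod p => w.2.2.1) h
    rw [one_mul] at h1
    exact one_ne_zero h1

end Pool.Agent.Results.MP_db5ef1_al.JordanRings
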